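import Pool.Agent.Helper10.RC.Basic

/-!
# MP_b55b7c_an: packet Simp
-/

open scoped ENNReal NNReal InnerProductSpace ComplexOrder
open Filter Topology

attribute [-instance] CStarMatrix.instAlgebra CStarMatrix.instModule CStarMatrix.instSMul
  CStarMatrix.instMulAction CStarMatrix.instDistribMulAction

noncomputable section
namespace RC
universe u

/-- A family of sums indexed by finite types suffices. -/
theorem simp_of_fintype {A : Type u} [Ring A] {x : A} {s : Type} [Fintype s]
    (p q : s → A) (h : ∑ i, p i * x * q i = 1) :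
    ∃ (n : ℕ) (p q : Fin n → A), ∑ i, p i * x * q i = 1 := by
  classical
  refine ⟨Fintype.card s, p ∘ (Fintype.equivFin s).symm, q ∘ (Fintype.equivFin s).symm, ?_⟩
  rw [← h]
  exact Equiv.sum_comp (Fintype.equivFin s).symm fun i => p i * x * q i

theorem mat_simp_aux {A : Type u} [Ring A] {ν : Type} [Fintype ν] [DecidableEq ν]
    (x : Matrix ν ν A) (k l : ν) {n : ℕ} (p q : Fin n → A) (h : ∑ i, p i * x k l * q i = 1) :
    ∑ t : ν × Fin n, Matrix.single t.1 k (p t.2) * x * Matrix.single l t.1 (q t.2) = 1 := by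
  rw [Fintype.sum_prod_type]
  have h1 : ∀ i : ν, ∑ s, Matrix.single i k (p s) * x * Matrix.single l i (q s) =
      Matrix.single i i (1 : A) := by
    intro i
    simp_rw [Matrix.single_mul_mul_single]
    rw [← h]
    exact (map_sum (Matrix.singleAddMonoidHom i i : A →+ Matrix ν ν A) _ _).symm
  simp_rw [h1]
  exact Matrix.sum_single_one

theorem matSimpP : MatSimpP.{u} := by
  intro A _ _ _ ν _ _ _
  constructor
  · rintro ⟨hn, hs⟩
    refine ⟨?_, ?_⟩
    · obtain ⟨i⟩ := ‹Nonempty ν›
      refine ⟨⟨0, 1, ?_⟩⟩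
      intro h
      have h2 : (0 : CStarMatrix ν ν A) i i = (1 : CStarMatrix ν ν A) i i := by rw [h]
      have h3 : (1 : CStarMatrix ν ν A) i i = 1 := Matrix.one_apply_eq i
      have h4 : (0 : CStarMatrix ν ν A) i i = 0 := rfl
      rw [h3, h4] at h2
      exact zero_ne_one h2
    · intro x hx
      have : ∃ k l, x k l ≠ 0 := by
        by_contra hc
        push Not at hc
        exact hx (by ext i j; exact hc i j)
      obtain ⟨k, l, hkl⟩ := this
      obtain ⟨n, p, q, h⟩ := hs _ hkl
      exact simp_of_fintype (s := ν × Fin n)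
        (fun t => (Matrix.single t.1 k (p t.2) : Matrix ν ν A))
        (fun t => (Matrix.single l t.1 (q t.2) : Matrix ν ν A)) (mat_simp_aux x k l p q h)
  · intro hA hM
    apply hA
    obtain ⟨i⟩ := ‹Nonempty ν›
    let f : A →ₗ[ℂ] CStarMatrix ν ν A :=
      { toFun := fun a => (Matrix.single i i a : Matrix ν ν A)
        map_add' := fun a b => Matrix.single_add i i a b
        map_smul' := fun c a => (Matrix.smul_single c i i a).symm }
    refine FiniteDimensional.of_injective f ?_
    intro a b hab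
    have : (Matrix.single i i a : Matrix ν ν A) i i = (Matrix.single i i b : Matrix ν ν A) i i :=
      congrFun (congrFun hab i) i
    simpa using this

/-- The finite sums of the elements `p * x * q`. -/
def genSet {A : Type u} [Ring A] (x : A) : Set A :=
  {s | ∃ (n : ℕ) (p q : Fin n → A), ∑ i, p i * x * q i = s}

theorem genSet_of_fintype {A : Type u} [Ring A] {x y : A} {s : Type} [Fintype s]
    (p q : s → A) (h : ∑ i, p i * x * q i = y) : y ∈ genSet x := by
  classical
  refine ⟨Fintype.card s, p ∘ (Fintype.equivFin s).symm, q ∘ (Fintype.equivFin s).symm, ?_⟩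
  rw [← h]
  exact Equiv.sum_comp (Fintype.equivFin s).symm fun i => p i * x * q i

theorem simpP : SimpP.{u} := by
  rintro A _ ⟨hn, hA⟩
  refine ⟨hn, ?_⟩
  intro x hx
  have hadd : ∀ {a b : A}, a ∈ genSet x → b ∈ genSet x → a + b ∈ genSet x := by
    rintro a b ⟨n, p, q, rfl⟩ ⟨m, p', q', rfl⟩
    refine genSet_of_fintype (s := Fin n ⊕ Fin m) (Sum.elim p p') (Sum.elim q q') ?_
    simp
  have hneg : ∀ {a : A}, a ∈ genSet x → -a ∈ genSet x := by
    rintro a ⟨n, p, q, rfl⟩
    exact ⟨n, fun i => - p i, q, by simp [Finset.sum_neg_distrib]⟩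
  have hzero : (0 : A) ∈ genSet x := ⟨0, Fin.elim0, Fin.elim0, by simp⟩
  have hleft : ∀ {a b : A}, b ∈ genSet x → a * b ∈ genSet x := by
    rintro a b ⟨n, p, q, rfl⟩
    exact ⟨n, fun i => a * p i, q, by simp [Finset.mul_sum, mul_assoc]⟩
  have hright : ∀ {a b : A}, a ∈ genSet x → a * b ∈ genSet x := by
    rintro a b ⟨n, p, q, rfl⟩
    exact ⟨n, p, fun i => q i * b, by simp [Finset.sum_mul, mul_assoc]⟩
  let J : TwoSidedIdeal A := TwoSidedIdeal.mk' (closure (genSet x))
    (subset_closure hzero)
    (fun {a b} ha hb => map_mem_closure₂ continuous_add ha hb fun a ha b hb => hadd ha hb)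
    (fun {a} ha => map_mem_closure continuous_neg ha fun a ha => hneg ha)
    (fun {a b} hb => map_mem_closure (f := fun c => a * c) (continuous_const.mul continuous_id) hb
        fun c hc => hleft hc)
    (fun {a b} ha => map_mem_closure (f := fun c => c * b) (continuous_id.mul continuous_const) ha
        fun c hc => hright hc)
  have hJ : (J : Set A) = closure (genSet x) := by
    ext a
    simp [J]
  have hJc : IsClosed (J : Set A) := by rw [hJ]; exact isClosed_closure
  have hxJ : x ∈ J := by
    have : x ∈ (J : Set A) := by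
      rw [hJ]
      exact subset_closure ⟨1, fun _ => 1, fun _ => 1, by simp⟩
    exact this
  have hJt : J = ⊤ := by
    rcases hA J hJc with h | h
    · rw [h] at hxJ
      exact absurd ((TwoSidedIdeal.mem_bot A).mp hxJ) hx
    · exact h
  have h1 : (1 : A) ∈ closure (genSet x) := by
    rw [← hJ, hJt]
    trivial
  obtain ⟨s, hs, hs1⟩ := Metric.mem_closure_iff.mp h1 1 one_pos
  rw [dist_eq_norm] at hs1
  let u : Aˣ := Units.oneSub (1 - s) hs1
  have hu : (u : A) = s := by simp [u]
  obtain ⟨n, p, q, hpq⟩ := hs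
  refine ⟨n, fun i => ↑u⁻¹ * p i, q, ?_⟩
  have : ∑ i, (↑u⁻¹ * p i) * x * q i = ↑u⁻¹ * ∑ i, p i * x * q i := by
    rw [Finset.mul_sum]
    simp_rw [mul_assoc]
  rw [this, hpq, ← hu]
  exact Units.inv_mul u

end RC
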